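import Pool.Agent.Lib.P2f5a6b.Basic

/-!
# A finitary skeletal normal functor that is not finitely square-skeletal

The functor sends a compactum `X` to the closed subspace of `X × X × X` consisting of all triples
with at most two different entries.
-/

set_option autoImplicit false

universe u

open CategoryTheory

open Pool.Agent.Lib.P2f5a6b in
/-- Some finitary skeletal normal functor on compact Hausdorff spaces sends some skeletal square
of surjections between finite spaces to a square which is not skeletal. -/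
theorem Pool.Agent.Results.MP_2f5a6b_gt.NotSquareSkeletal.result :
    ∃ F : CompHaus.{u} ⥤ CompHaus.{u}, IsNormal F ∧ IsFinitary F ∧ IsSkeletalFunctor F ∧
      ∃ (X' Y' X Y : CompHaus.{u}) (f' : X' ⟶ Y') (f : X ⟶ Y) (pX : X' ⟶ X) (pY : Y' ⟶ Y),
        Finite X' ∧ Finite Y' ∧ Finite X ∧ Finite Y ∧
        Function.Surjective f' ∧ Function.Surjective f ∧
        Function.Surjective pX ∧ Function.Surjective pY ∧
        IsSkeletalSquare f' f pX pY ∧
        ¬ IsSkeletalSquare (F.map f') (F.map f) (F.map pX) (F.map pY) := by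
  refine ⟨F, isNormal_F, isFinitary_F, isSkeletalFunctor_F, ?_⟩
  let B : Type u := ULift.{u} Bool
  let P : Type u := PUnit.{u + 1}
  let f' : C(B × B, B) := ⟨Prod.snd, continuous_snd⟩
  let pX : C(B × B, B) := ⟨Prod.fst, continuous_fst⟩
  let q : C(B, P) := ⟨fun _ => PUnit.unit, continuous_const⟩
  refine ⟨CompHaus.of (B × B), CompHaus.of B, CompHaus.of B, CompHaus.of P,
    CompHausLike.ofHom _ f', CompHausLike.ofHom _ q, CompHausLike.ofHom _ pX,
    CompHausLike.ofHom _ q, ?_, ?_, ?_, ?_, ?_, ?_, ?_, ?_, ?_, ?_⟩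
  · show Finite (B × B); infer_instance
  · show Finite B; infer_instance
  · show Finite B; infer_instance
  · show Finite P; infer_instance
  · intro b; exact ⟨(b, b), rfl⟩
  · intro b; exact ⟨ULift.up true, rfl⟩
  · intro b; exact ⟨(b, b), rfl⟩
  · intro b; exact ⟨ULift.up true, rfl⟩
  · refine ⟨fun _ => rfl, fun x U hU => ⟨Set.univ, isOpen_univ, ⟨PUnit.unit, trivial⟩, ?_, ?_⟩⟩
    · intro y _
      exact ⟨x, mem_of_mem_nhds hU, rfl⟩
    · intro y _
      have hx : x ∈ U := mem_of_mem_nhds hU
      exact ⟨((x, y) : B × B), hx, rfl⟩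
  · rintro ⟨_, h⟩
    let t : B := ULift.up true
    let e : B := ULift.up false
    have hte : t ≠ e := fun h => Bool.noConfusion (congrArg ULift.down h)
    -- the discrete point `(t, t, e)`
    let x : Tr B := ⟨(t, t, e), Or.inl rfl⟩
    have hdisc : DiscreteTopology (Tr B) := inferInstance
    have hopen : IsOpen ({x} : Set (Tr B)) := isOpen_discrete _
    obtain ⟨V, _, ⟨v, hv⟩, _, hsub⟩ := h x {x} (hopen.mem_nhds rfl)
    -- the point `(t, e, t)` has no suitable lift
    let y : Tr B := ⟨(t, e, t), Or.inr (Or.inl rfl)⟩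
    have hy : (F.map (CompHausLike.ofHom (fun _ => True) q)) y ∈ V := by
      have hsing : Subsingleton (Tr P) := ⟨fun p q => Subtype.ext (Prod.ext rfl (Prod.ext rfl rfl))⟩
      have : (F.map (CompHausLike.ofHom (fun _ => True) q)) y = v :=
        @Subsingleton.elim (Tr P) hsing _ _
      rw [this]
      exact hv
    obtain ⟨z, hz, hz'⟩ := hsub hy
    have e1 : trMap pX z = x := hz
    have e2 : trMap f' z = y := hz'
    have a1 : z.1.1.1 = t := congrArg (fun p => p.1.1) e1
    have a2 : z.1.2.1.1 = t := congrArg (fun p => p.1.2.1) e1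
    have a3 : z.1.2.2.1 = e := congrArg (fun p => p.1.2.2) e1
    have b1 : z.1.1.2 = t := congrArg (fun p => p.1.1) e2
    have b2 : z.1.2.1.2 = e := congrArg (fun p => p.1.2.1) e2
    have b3 : z.1.2.2.2 = t := congrArg (fun p => p.1.2.2) e2
    rcases z.2 with h | h | h
    · exact hte (b1.symm.trans ((congrArg Prod.snd h).trans b2))
    · exact hte (a1.symm.trans ((congrArg Prod.fst h).trans a3))
    · exact hte (a2.symm.trans ((congrArg Prod.fst h).trans a3))
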